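import Pool.Agent.Lib_helper21.WsapDefs
import Pool.Agent.Lib_helper21.WsapMain
import Pool.Agent.Lib_helper21.WsapUpper

namespace Pool.Agent.Results.MP_a5baac_gt.AllMinimalNumbers

open Pool.Agent.Lib_helper21.Wsap

/-- For every `k ≥ 1` there is a link that is weakly successively `k`-almost positive but not
weakly successively `k'`-almost positive for any `k' < k`. -/
theorem result : ∀ k : ℕ, 1 ≤ k →
    ∃ L : Link, L.WSAP k ∧ ∀ k' : ℕ, k' < k → ¬ L.WSAP k' :=
  fun k _ => ⟨Quot.mk Step (exD k), ⟨exD k, rfl, exD_wsap k⟩, fun _ hk => ex_not_wsap hk⟩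

end Pool.Agent.Results.MP_a5baac_gt.AllMinimalNumbers
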